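import Pool.Agent.Helper44.HD.GoalsC

/-!
# Project HD, packet CA (the Hochschild homology of the category of the modules `R ⊗ V`)
-/

set_option autoImplicit false
set_option linter.unusedSectionVars false

open Finset
open scoped TensorProduct

namespace Pool.Agent.Helper93.HD

open Pool.Agent.Helper44.HD

/-! ## Functoriality of chains -/

section fct

variable {k A B C : Type} [Field k] [Ring A] [Algebra k A] [Ring B] [Algebra k B] [Ring C]
  [Algebra k C]

theorem HCmap_comp (f : A →ₗ[k] B) (g : B →ₗ[k] C) (n : ℕ) (z : HC k A n) :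
    HCmap k g n (HCmap k f n z) = HCmap k (g ∘ₗ f) n z := by
  have h : (HCmap k g n) ∘ₗ (HCmap k f n) = HCmap k (g ∘ₗ f) n := by
    refine HC_ext fun x => ?_
    rw [LinearMap.comp_apply, HCmap_tp, HCmap_tp, HCmap_tp]
    rfl
  rw [← h, LinearMap.comp_apply]

theorem HCmap_id (n : ℕ) (z : HC k A n) : HCmap k (LinearMap.id : A →ₗ[k] A) n z = z := by
  have h : HCmap k (LinearMap.id : A →ₗ[k] A) n = LinearMap.id := by
    refine HC_ext fun x => ?_
    rw [HCmap_tp]
    rfl
  rw [h, LinearMap.id_apply]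

theorem HCmap_inj (f : A →ₗ[k] B) (hf : Function.Injective f) (n : ℕ) :
    Function.Injective (HCmap k f n) := by
  obtain ⟨g, hg⟩ := f.exists_leftInverse_of_injective (LinearMap.ker_eq_bot.2 hf)
  intro z z' h
  have h1 := congrArg (HCmap k g n) h
  rw [HCmap_comp, HCmap_comp, hg, HCmap_id, HCmap_id] at h1
  exact h1

theorem HCmap_bc (f : A →ₗ[k] B) (hf : ∀ a b, f (a * b) = f a * f b) (n : ℕ)
    (z : HC k A (n + 1)) : bc k B n (HCmap k f (n + 1) z) = HCmap k f n (bc k A n z) := by
  have h1 : ∀ (j : ℕ) (x : ℕ → A), (fun i => f (ct j x i)) = ct j fun i => f (x i) := by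
    intro j x
    funext i
    simp only [ct]
    split_ifs <;> simp [hf]
  have h2 : ∀ (m : ℕ) (x : ℕ → A), (fun i => f (cy m x i)) = cy m fun i => f (x i) := by
    intro m x
    funext i
    simp only [cy]
    split_ifs <;> simp [hf]
  have h : (bc k B n) ∘ₗ (HCmap k f (n + 1)) = (HCmap k f n) ∘ₗ (bc k A n) := by
    refine HC_ext fun x => ?_
    rw [LinearMap.comp_apply, LinearMap.comp_apply, HCmap_tp, bc_tp, bc_tp]
    unfold bch
    rw [map_add, map_sum, map_smul, HCmap_tp, h2]
    congr 1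
    refine sum_congr rfl fun j _ => ?_
    rw [map_smul, HCmap_tp, h1]
  exact LinearMap.congr_fun h z

end fct

/-! ## Inclusion matrices -/

section incl

variable {k : Type} [Field k] {v w u : Type} [Fintype v] [DecidableEq v] [Fintype w]
  [DecidableEq w] [Fintype u] [DecidableEq u]

/-- the matrix of the inclusion `c` -/
def ic (k : Type) [Field k] (c : v → w) : Matrix w v k := fun p q => if p = c q then 1 else 0

theorem ic_mul (c : v → w) (B : Matrix v u k) (p : w) (j : u) :
    (ic k c * B) p j = ∑ i, if p = c i then B i j else 0 := by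
  rw [Matrix.mul_apply]
  refine sum_congr rfl fun i _ => ?_
  simp only [ic, ite_mul, one_mul, zero_mul]

theorem mul_ic (c : v → w) (B : Matrix u w k) (p : u) (j : v) :
    (B * ic k c) p j = B p (c j) := by
  rw [Matrix.mul_apply]
  simp only [ic, mul_ite, mul_one, mul_zero, sum_ite_eq', mem_univ, if_true]

theorem icT_mul (c : v → w) (B : Matrix w u k) (i : v) (j : u) :
    ((ic k c).transpose * B) i j = B (c i) j := by
  rw [Matrix.mul_apply]
  simp only [ic, Matrix.transpose_apply, ite_mul, one_mul, zero_mul, sum_ite_eq', mem_univ,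
    if_true]

theorem mul_icT (c : v → w) (B : Matrix u v k) (p : u) (q : w) :
    (B * (ic k c).transpose) p q = ∑ i, if q = c i then B p i else 0 := by
  rw [Matrix.mul_apply]
  refine sum_congr rfl fun i _ => ?_
  simp only [ic, Matrix.transpose_apply, mul_ite, mul_one, mul_zero]

variable {G : Type} [Group G] {D : RedGroup k G}

/-- the direct summand defined by an invariant set of coordinates -/
def retI {V : MRep D v} {W : MRep D w} (c : v → w) (hc : Function.Injective c)
    (h1 : ∀ g i j, W.m g (c i) (c j) = V.m g i j)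
    (h2 : ∀ g p j, (∀ i, p ≠ c i) → W.m g p (c j) = 0)
    (h3 : ∀ g i p, (∀ j, p ≠ c j) → W.m g (c i) p = 0) : RetD V W where
  a := ic k c
  b := (ic k c).transpose
  ha g := by
    ext p j
    rw [mul_ic, ic_mul]
    by_cases hp : ∃ i, p = c i
    · obtain ⟨i, rfl⟩ := hp
      rw [h1]
      have : ∀ i', (if c i = c i' then V.m g i' j else 0) = if i = i' then V.m g i' j else 0 := by
        intro i'
        by_cases h : i = i'
        · rw [if_pos h, if_pos (by rw [h])]
        · rw [if_neg h, if_neg fun e => h (hc e)]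
      simp only [this, sum_ite_eq, mem_univ, if_true]
    · push Not at hp
      rw [h2 g p j hp]
      exact (sum_eq_zero fun i _ => if_neg (hp i)).symm
  hb g := by
    ext i p
    rw [icT_mul, mul_icT]
    by_cases hp : ∃ j, p = c j
    · obtain ⟨j, rfl⟩ := hp
      rw [h1]
      have : ∀ i', (if c j = c i' then V.m g i i' else 0) = if j = i' then V.m g i i' else 0 := by
        intro i'
        by_cases h : j = i'
        · rw [if_pos h, if_pos (by rw [h])]
        · rw [if_neg h, if_neg fun e => h (hc e)]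
      simp only [this, sum_ite_eq, mem_univ, if_true]
    · push Not at hp
      rw [h3 g i p hp]
      exact sum_eq_zero fun j _ => if_neg (hp j)
  ba := by
    ext i j
    rw [icT_mul, Matrix.one_apply]
    simp only [ic]
    by_cases h : i = j
    · rw [if_pos h, if_pos (by rw [h])]
    · rw [if_neg h, if_neg fun e => h (hc e)]

end incl

/-! ## Matrices as operators -/

section jj

variable {k G : Type} [Field k] [Group G] {D : RedGroup k G} {R : Type} [Ring R] [Algebra k R]
  {v w u v' w' : Type} [Fintype v] [DecidableEq v] [Fintype w] [DecidableEq w] [Fintype u]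
  [DecidableEq u] [Fintype v'] [DecidableEq v'] [Fintype w'] [DecidableEq w']

/-- a matrix as an operator -/
noncomputable def JJ (i1 : v → Ix D) (i2 : w → Ix D) : Matrix v w R →ₗ[k] Amb D R where
  toFun A := ∑ i, ∑ j, Finsupp.lsingle (i1 i) ∘ₗ LinearMap.mulLeft k (A i j) ∘ₗ
    Finsupp.lapply (i2 j)
  map_add' A B := by
    rw [← sum_add_distrib]
    refine sum_congr rfl fun i _ => ?_
    rw [← sum_add_distrib]
    refine sum_congr rfl fun j _ => ?_
    ext
    simp [add_mul]
  map_smul' c A := by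
    rw [RingHom.id_apply, smul_sum]
    refine sum_congr rfl fun i _ => ?_
    rw [smul_sum]
    refine sum_congr rfl fun j _ => ?_
    ext
    simp

theorem JJ_apply (i1 : v → Ix D) (i2 : w → Ix D) (A : Matrix v w R) (f : Ix D →₀ R) :
    (JJ (k := k) i1 i2 A) f = ∑ i, ∑ j, Finsupp.single (i1 i) (A i j * f (i2 j)) := by
  change (∑ i, ∑ j, Finsupp.lsingle (i1 i) ∘ₗ LinearMap.mulLeft k (A i j) ∘ₗ
    Finsupp.lapply (i2 j)) f = _
  rw [LinearMap.sum_apply]
  refine sum_congr rfl fun i _ => ?_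
  rw [LinearMap.sum_apply]
  rfl

theorem em_eq (x y : Ob D) (A : Matrix (Fin x.1) (Fin y.1) R) :
    em (k := k) x y A = JJ (fun i => (⟨x, i⟩ : Ix D)) (fun j => (⟨y, j⟩ : Ix D)) A := rfl

theorem single_fsum {I J M : Type} [AddCommMonoid M] (a : I) (s : Finset J) (f : J → M) :
    Finsupp.single a (∑ i ∈ s, f i) = ∑ i ∈ s, Finsupp.single a (f i) :=
  map_sum (Finsupp.singleAddHom a) f s

theorem JJ_mul (i1 : v → Ix D) (i2 : w → Ix D) (i3 : u → Ix D) (h : Function.Injective i2)
    (A : Matrix v w R) (B : Matrix w u R) :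
    JJ (k := k) i1 i2 A * JJ i2 i3 B = JJ i1 i3 (A * B) := by
  apply LinearMap.ext
  intro f
  rw [Module.End.mul_apply, JJ_apply, JJ_apply, JJ_apply]
  refine sum_congr rfl fun i _ => ?_
  have e1 : ∀ j, (∑ j', ∑ l, Finsupp.single (i2 j') (B j' l * f (i3 l))) (i2 j) =
      ∑ l, B j l * f (i3 l) := by
    intro j
    rw [Finsupp.finsetSum_apply, Finset.sum_eq_single j]
    · rw [Finsupp.finsetSum_apply]
      exact sum_congr rfl fun l _ => Finsupp.single_eq_same
    · intro j' _ hj
      rw [Finsupp.finsetSum_apply]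
      refine sum_eq_zero fun l _ => ?_
      exact Finsupp.single_eq_of_ne fun e => hj (h e).symm
    · intro hj
      exact absurd (mem_univ j) hj
  simp only [e1]
  rw [← single_fsum, ← single_fsum]
  congr 1
  simp only [mul_sum, Matrix.mul_apply, sum_mul]
  rw [sum_comm]
  exact sum_congr rfl fun l _ => sum_congr rfl fun j _ => (mul_assoc _ _ _).symm

theorem JJ_inj (i1 : v → Ix D) (i2 : w → Ix D) (h1 : Function.Injective i1)
    (h2 : Function.Injective i2) : Function.Injective (JJ (k := k) (R := R) i1 i2) := by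
  have key : ∀ (A : Matrix v w R) (i : v) (j : w),
      (JJ (k := k) i1 i2 A) (Finsupp.single (i2 j) 1) (i1 i) = A i j := by
    intro A i j
    rw [JJ_apply, Finsupp.finsetSum_apply, Finset.sum_eq_single i]
    · rw [Finsupp.finsetSum_apply, Finset.sum_eq_single j]
      · rw [Finsupp.single_eq_same, Finsupp.single_eq_same, mul_one]
      · intro j' _ hj
        rw [Finsupp.single_eq_same, Finsupp.single_eq_of_ne fun e => hj (h2 e), mul_zero]
      · intro hj
        exact absurd (mem_univ j) hj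
    · intro i' _ hi
      rw [Finsupp.finsetSum_apply]
      refine sum_eq_zero fun l _ => ?_
      exact Finsupp.single_eq_of_ne fun e => hi (h1 e).symm
    · intro hi
      exact absurd (mem_univ i) hi
  intro A B h
  ext i j
  rw [← key A i j, h, key]

theorem sum4 {M : Type} [AddCommMonoid M] (F : v → w → v' → w' → M) :
    ∑ p, ∑ q, ∑ i, ∑ j, F p q i j = ∑ i, ∑ j, ∑ p, ∑ q, F p q i j := by
  calc ∑ p, ∑ q, ∑ i, ∑ j, F p q i j = ∑ p, ∑ i, ∑ q, ∑ j, F p q i j :=
        sum_congr rfl fun p _ => sum_comm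
    _ = ∑ i, ∑ p, ∑ q, ∑ j, F p q i j := sum_comm
    _ = ∑ i, ∑ p, ∑ j, ∑ q, F p q i j :=
        sum_congr rfl fun i _ => sum_congr rfl fun p _ => sum_comm
    _ = ∑ i, ∑ j, ∑ p, ∑ q, F p q i j := sum_congr rfl fun i _ => sum_comm

theorem JJ_ic (i1 : v → Ix D) (i2 : w → Ix D) (c : v' → v) (c' : w' → w)
    (A : Matrix v' w' R) :
    JJ (k := k) i1 i2 ((ic k c).map (algebraMap k R) * A *
      (ic k c').transpose.map (algebraMap k R)) = JJ (fun i => i1 (c i)) (fun j => i2 (c' j)) A := by
  apply LinearMap.ext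
  intro f
  rw [JJ_apply, JJ_apply]
  have e1 : ∀ (p : v) (q : w), ((ic k c).map (algebraMap k R) * A *
      (ic k c').transpose.map (algebraMap k R)) p q =
      ∑ i, ∑ j, if p = c i then (if q = c' j then A i j else 0) else 0 := by
    intro p q
    simp only [Matrix.mul_apply, Matrix.map_apply, Matrix.transpose_apply, ic, sum_mul]
    rw [sum_comm]
    refine sum_congr rfl fun i _ => sum_congr rfl fun j _ => ?_
    by_cases h1 : p = c i
    · by_cases h2 : q = c' j
      · simp [h1, h2]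
      · simp [h1, h2]
    · simp [h1]
  have e2 : ∀ (p : v) (q : w), Finsupp.single (i1 p) (((ic k c).map (algebraMap k R) * A *
      (ic k c').transpose.map (algebraMap k R)) p q * f (i2 q)) =
      ∑ i, ∑ j, if p = c i then (if q = c' j then Finsupp.single (i1 p) (A i j * f (i2 q)) else 0)
        else 0 := by
    intro p q
    rw [e1, sum_mul, single_fsum]
    refine sum_congr rfl fun i _ => ?_
    rw [sum_mul, single_fsum]
    refine sum_congr rfl fun j _ => ?_
    split_ifs <;> simp
  simp only [e2]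
  calc ∑ p, ∑ q, ∑ i, ∑ j, (if p = c i then
        (if q = c' j then Finsupp.single (i1 p) (A i j * f (i2 q)) else 0) else 0)
      = ∑ i, ∑ j, ∑ p, ∑ q, (if p = c i then
        (if q = c' j then Finsupp.single (i1 p) (A i j * f (i2 q)) else 0) else 0) := by
        exact sum4 _
    _ = ∑ i, ∑ j, Finsupp.single (i1 (c i)) (A i j * f (i2 (c' j))) := by
        refine sum_congr rfl fun i _ => sum_congr rfl fun j _ => ?_
        rw [Finset.sum_eq_single (c i)]
        · rw [Finset.sum_eq_single (c' j)]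
          · rw [if_pos rfl, if_pos rfl]
          · intro q _ hq
            rw [if_pos rfl, if_neg hq]
          · intro h
            exact absurd (mem_univ _) h
        · intro p _ hp
          exact sum_eq_zero fun q _ => if_neg hp
        · intro h
          exact absurd (mem_univ _) h

end jj

/-! ## Finite sums of objects -/

section fin

variable {k G : Type} [Field k] [Group G] {D : RedGroup k G}

noncomputable instance instDecOb (D : RedGroup k G) : DecidableEq (Ob D) := Classical.decEq _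

/-- the coordinates of the direct sum of the objects in `S` -/
abbrev KS (S : Finset (Ob D)) : Type := Σ x : {x // x ∈ S}, Fin x.1.1

/-- the direct sum of the objects in `S` -/
noncomputable def VS (S : Finset (Ob D)) : MRep D (KS S) where
  m g := Matrix.blockDiagonal' fun x : {x // x ∈ S} => x.1.2.m g
  one := by
    simp only [MRep.one]
    exact Matrix.blockDiagonal'_one
  mul g h := by
    simp only [MRep.mul]
    exact Matrix.blockDiagonal'_mul _ _
  rat := by
    rintro ⟨x, i⟩ ⟨y, j⟩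
    by_cases h : x = y
    · subst h
      simp only [Matrix.blockDiagonal'_apply_eq]
      exact x.1.2.rat i j
    · simp only [Matrix.blockDiagonal'_apply_ne _ _ _ h]
      exact D.O.zero_mem

theorem VS_eq (S : Finset (Ob D)) (g : G) (x : {x // x ∈ S}) (i j : Fin x.1.1) :
    (VS S).m g ⟨x, i⟩ ⟨x, j⟩ = x.1.2.m g i j := by
  change Matrix.blockDiagonal' (fun x : {x // x ∈ S} => x.1.2.m g) ⟨x, i⟩ ⟨x, j⟩ = _
  rw [Matrix.blockDiagonal'_apply_eq]

theorem VS_ne (S : Finset (Ob D)) (g : G) (x y : {x // x ∈ S}) (i : Fin x.1.1) (j : Fin y.1.1)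
    (h : x ≠ y) : (VS S).m g ⟨x, i⟩ ⟨y, j⟩ = 0 := by
  change Matrix.blockDiagonal' (fun x : {x // x ∈ S} => x.1.2.m g) ⟨x, i⟩ ⟨y, j⟩ = _
  rw [Matrix.blockDiagonal'_apply_ne _ _ _ h]

/-- the block of `x` -/
def cc {S : Finset (Ob D)} (x : {x // x ∈ S}) : Fin x.1.1 → KS S := fun i => ⟨x, i⟩

theorem cc_inj {S : Finset (Ob D)} (x : {x // x ∈ S}) : Function.Injective (cc x) := by
  intro i j h
  exact eq_of_heq (Sigma.mk.inj_iff.1 h).2

/-- the object `x` as a direct summand of the sum over `S` -/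
noncomputable def rho {S : Finset (Ob D)} (x : {x // x ∈ S}) : RetD x.1.2 (VS S) :=
  retI (cc x) (cc_inj x) (fun g i j => VS_eq S g x i j)
    (fun g p j hp => by
      obtain ⟨y, i⟩ := p
      refine VS_ne S g y x i j fun e => ?_
      subst e
      exact hp i rfl)
    (fun g i p hp => by
      obtain ⟨y, j⟩ := p
      refine VS_ne S g x y i j fun e => ?_
      subst e
      exact hp j rfl)

/-- inclusion of the coordinates -/
def inc {S T : Finset (Ob D)} (h : S ⊆ T) : KS S → KS T := fun p => ⟨⟨p.1.1, h p.1.2⟩, p.2⟩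

theorem inc_inj {S T : Finset (Ob D)} (h : S ⊆ T) : Function.Injective (inc h) := by
  rintro ⟨⟨x, hx⟩, i⟩ ⟨⟨y, hy⟩, j⟩ e
  obtain ⟨h1, h2⟩ := Sigma.mk.inj_iff.1 e
  have h3 : x = y := congrArg Subtype.val h1
  subst h3
  have h4 : i = j := eq_of_heq h2
  rw [h4]

/-- the sum over `S` as a direct summand of the sum over `T` -/
noncomputable def rinc {S T : Finset (Ob D)} (h : S ⊆ T) : RetD (VS S) (VS T) :=
  retI (inc h) (inc_inj h)
    (fun g p q => by
      obtain ⟨⟨x, hx⟩, i⟩ := p
      obtain ⟨⟨y, hy⟩, j⟩ := q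
      by_cases e : x = y
      · subst e
        exact (VS_eq T g ⟨x, h hx⟩ i j).trans (VS_eq S g ⟨x, hx⟩ i j).symm
      · exact (VS_ne T g ⟨x, h hx⟩ ⟨y, h hy⟩ i j fun e' => e (congrArg Subtype.val e')).trans
          (VS_ne S g ⟨x, hx⟩ ⟨y, hy⟩ i j fun e' => e (congrArg Subtype.val e')).symm)
    (fun g p q hp => by
      obtain ⟨⟨x, hx⟩, i⟩ := p
      obtain ⟨⟨y, hy⟩, j⟩ := q
      refine VS_ne T g ⟨x, hx⟩ ⟨y, h hy⟩ i j fun e' => ?_
      have e : x = y := congrArg Subtype.val e'
      subst e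
      exact hp ⟨⟨x, hy⟩, i⟩ rfl)
    (fun g p q hp => by
      obtain ⟨⟨x, hx⟩, i⟩ := p
      obtain ⟨⟨y, hy⟩, j⟩ := q
      refine VS_ne T g ⟨x, h hx⟩ ⟨y, hy⟩ i j fun e' => ?_
      have e : x = y := congrArg Subtype.val e'
      subst e
      exact hp ⟨⟨x, hx⟩, j⟩ rfl)

/-- the coordinates in the sum of all objects -/
def iot (S : Finset (Ob D)) : KS S → Ix D := fun p => ⟨p.1.1, p.2⟩

theorem iot_inj (S : Finset (Ob D)) : Function.Injective (iot S) := by
  rintro ⟨⟨x, hx⟩, i⟩ ⟨⟨y, hy⟩, j⟩ e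
  obtain ⟨h1, h2⟩ := Sigma.mk.inj_iff.1 e
  have h3 : x = y := h1
  subst h3
  have h4 : i = j := eq_of_heq h2
  rw [h4]

variable {R : Type} [Ring R] [Algebra k R] [MulSemiringAction G R] [SMulCommClass G k R]

/-- linear maps of algebras (the module structures come from the algebra structures) -/
abbrev LM (k A B : Type) [Field k] [Ring A] [Algebra k A] [Ring B] [Algebra k B] : Type :=
  A →ₗ[k] B

/-- the endomorphisms of the sum over `S` as endomorphisms of the sum of all objects -/
noncomputable def JS (S : Finset (Ob D)) : LM k (EE R (VS S)) (Amb D R) where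
  toFun b := JJ (iot S) (iot S) b.1
  map_add' b c := (JJ (iot S) (iot S)).map_add b.1 c.1
  map_smul' r b := (JJ (iot S) (iot S)).map_smul r b.1

theorem JS_apply (S : Finset (Ob D)) (b : EE R (VS S)) :
    JS S b = JJ (iot S) (iot S) b.1 := rfl

theorem JS_mul (S : Finset (Ob D)) (b c : EE R (VS S)) : JS S (b * c) = JS S b * JS S c := by
  rw [JS_apply, JS_apply, JS_apply, JJ_mul _ _ _ (iot_inj S)]
  rfl

theorem JS_inj (S : Finset (Ob D)) : Function.Injective (JS (R := R) S) := by
  intro b c h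
  rw [JS_apply, JS_apply] at h
  exact Subtype.ext (JJ_inj _ _ (iot_inj S) (iot_inj S) h)

theorem JS_rinc {S T : Finset (Ob D)} (h : S ⊆ T) (b : EE R (VS S)) :
    JS T ((rinc h).emb b) = JS S b := by
  rw [JS_apply, JS_apply]
  exact JJ_ic (iot T) (iot T) (inc h) (inc h) b.1

/-- the identity of the block `x` -/
noncomputable def ex (R : Type) [Ring R] [Algebra k R] [MulSemiringAction G R]
    [SMulCommClass G k R] {S : Finset (Ob D)} (x : {x // x ∈ S}) : EE R (VS S) := (rho x).emb 1

theorem ba_map {v w : Type} [Fintype v] [DecidableEq v] [Fintype w] [DecidableEq w]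
    {V : MRep D v} {W : MRep D w} (r : RetD V W) :
    r.b.map (algebraMap k R) * r.a.map (algebraMap k R) = 1 := by
  rw [← Matrix.map_mul, r.ba, Matrix.map_one _ (map_zero _) (map_one _)]

theorem ex_val {S : Finset (Ob D)} (x : {x // x ∈ S}) :
    (ex R x).1 = (rho x).a.map (algebraMap k R) * (rho x).b.map (algebraMap k R) := by
  unfold ex
  rw [RetD.emb_apply]
  have h1 : (1 : EE R x.1.2).1 = (1 : Matrix (Fin x.1.1) (Fin x.1.1) R) := rfl
  rw [h1, Matrix.mul_one]

theorem hom_of {S : Finset (Ob D)} (x y : {x // x ∈ S}) (b : EE R (VS S))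
    (hb : b = ex R x * b * ex R y) : JS S b ∈ hom R x.1 y.1 := by
  refine ⟨(rho x).b.map (algebraMap k R) * b.1 * (rho y).a.map (algebraMap k R),
    Hm_mul (Hm_mul (map_mem_Hm (rho x).hb) b.2) (map_mem_Hm (rho y).ha), ?_⟩
  have h1 := JJ_ic (k := k) (iot S) (iot S) (cc x) (cc y)
    ((rho x).b.map (algebraMap k R) * b.1 * (rho y).a.map (algebraMap k R))
  rw [em_eq, JS_apply]
  refine Eq.trans h1.symm (congrArg _ ?_)
  have h2 : b.1 = (ex R x).1 * b.1 * (ex R y).1 := congrArg Subtype.val hb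
  rw [ex_val, ex_val] at h2
  conv_rhs => rw [h2]
  change (rho x).a.map (algebraMap k R) * _ * (rho y).b.map (algebraMap k R) = _
  simp only [Matrix.mul_assoc]

theorem exists_of_hom {S : Finset (Ob D)} (x y : {x // x ∈ S}) (a : Amb D R)
    (ha : a ∈ hom R x.1 y.1) : ∃ b : EE R (VS S), b = ex R x * b * ex R y ∧ JS S b = a := by
  obtain ⟨A, hA, rfl⟩ := ha
  refine ⟨⟨(rho x).a.map (algebraMap k R) * A * (rho y).b.map (algebraMap k R),
    Hm_mul (Hm_mul (map_mem_Hm (rho x).ha) hA) (map_mem_Hm (rho y).hb)⟩, ?_, ?_⟩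
  · apply Subtype.ext
    change (rho x).a.map (algebraMap k R) * A * (rho y).b.map (algebraMap k R) =
      (ex R x).1 * ((rho x).a.map (algebraMap k R) * A * (rho y).b.map (algebraMap k R)) *
        (ex R y).1
    rw [ex_val, ex_val]
    calc (rho x).a.map (algebraMap k R) * A * (rho y).b.map (algebraMap k R)
        = (rho x).a.map (algebraMap k R) * ((rho x).b.map (algebraMap k R) *
          (rho x).a.map (algebraMap k R)) * A * ((rho y).b.map (algebraMap k R) *
          (rho y).a.map (algebraMap k R)) * (rho y).b.map (algebraMap k R) := by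
          rw [ba_map, ba_map, Matrix.mul_one, Matrix.mul_one]
      _ = _ := by simp only [Matrix.mul_assoc]
  · rw [em_eq, JS_apply]
    exact JJ_ic (k := k) (iot S) (iot S) (cc x) (cc y) A

theorem ex_idem {S : Finset (Ob D)} (x : {x // x ∈ S}) : ex R x * ex R x = ex R x := by
  unfold ex
  rw [← RetD.emb_mul, mul_one]

theorem ex_orth {S : Finset (Ob D)} (x y : {x // x ∈ S}) (h : x ≠ y) :
    ex R x * ex R y = 0 := by
  apply Subtype.ext
  change (ex R x).1 * (ex R y).1 = 0
  rw [ex_val, ex_val]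
  have h1 : (rho x).b * (rho y).a = (0 : Matrix (Fin x.1.1) (Fin y.1.1) k) := by
    ext i j
    change ((ic k (cc x)).transpose * ic k (cc y)) i j = 0
    rw [icT_mul]
    simp only [ic]
    rw [if_neg]
    intro e
    exact h (Sigma.mk.inj_iff.1 e).1
  have h2 : (rho x).b.map (algebraMap k R) * (rho y).a.map (algebraMap k R) = 0 := by
    rw [← Matrix.map_mul, h1, Matrix.map_zero _ (map_zero _)]
  calc (rho x).a.map (algebraMap k R) * (rho x).b.map (algebraMap k R) *
        ((rho y).a.map (algebraMap k R) * (rho y).b.map (algebraMap k R))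
      = (rho x).a.map (algebraMap k R) * ((rho x).b.map (algebraMap k R) *
        (rho y).a.map (algebraMap k R)) * (rho y).b.map (algebraMap k R) := by
        simp only [Matrix.mul_assoc]
    _ = 0 := by rw [h2, Matrix.mul_zero, Matrix.zero_mul]

theorem ex_sum (S : Finset (Ob D)) : ∑ x : {x // x ∈ S}, ex R x = 1 := by
  apply Subtype.ext
  have h1 : (∑ x : {x // x ∈ S}, ex R x).1 = ∑ x : {x // x ∈ S}, (ex R x).1 :=
    map_sum (EE R (VS S)).val _ _
  rw [h1]
  change _ = (1 : Matrix (KS S) (KS S) R)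
  have h2 : ∀ x : {x // x ∈ S}, (ex R x).1 = ((rho x).a * (rho x).b).map (algebraMap k R) := by
    intro x
    rw [ex_val, Matrix.map_mul]
  have h3 : ∑ x : {x // x ∈ S}, (rho x).a * (rho x).b = (1 : Matrix (KS S) (KS S) k) := by
    ext p q
    rw [Matrix.sum_apply]
    have h4 : ∀ x : {x // x ∈ S}, ((rho x).a * (rho x).b) p q =
        ∑ i : Fin x.1.1, if q = cc x i then (if p = cc x i then (1 : k) else 0) else 0 := by
      intro x
      change (ic k (cc x) * (ic k (cc x)).transpose) p q = _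
      rw [mul_icT]
      rfl
    simp only [h4]
    have h5 := Fintype.sum_sigma (fun s : KS S =>
      if q = s then (if p = s then (1 : k) else 0) else 0)
    change _ = ∑ x : {x // x ∈ S}, ∑ i : Fin x.1.1,
      (if q = cc x i then (if p = cc x i then (1 : k) else 0) else 0) at h5
    rw [← h5, sum_ite_eq, if_pos (mem_univ q), Matrix.one_apply]
  simp only [h2]
  rw [← Matrix.map_one (algebraMap k R) (map_zero _) (map_one _), ← h3]
  ext p q
  simp only [Matrix.sum_apply, Matrix.map_apply, map_sum]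

/-- the composable words of the sum over `S` -/
noncomputable def Wd (R : Type) [Ring R] [Algebra k R] [MulSemiringAction G R]
    [SMulCommClass G k R] (S : Finset (Ob D)) (q : ℕ) : Submodule k (HC k (EE R (VS S)) q) :=
  Submodule.span k {z | ∃ (x : ℕ → {x // x ∈ S}) (a : ℕ → EE R (VS S)),
      (∀ i, i ≤ q → a i = ex R (x i) * a i * ex R (x (i + 1))) ∧ x (q + 1) = x 0 ∧ z = tp k q a}

theorem Wd_map (S : Finset (Ob D)) (q : ℕ) (z : HC k (EE R (VS S)) q) (hz : z ∈ Wd R S q) :
    HCmap k (JS S) q z ∈ Cyc R D q := by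
  unfold Wd at hz
  induction hz using Submodule.span_induction with
  | mem z h =>
    obtain ⟨x, a, h1, h2, rfl⟩ := h
    rw [HCmap_tp]
    refine Submodule.subset_span ⟨fun i => (x i).1, fun i => JS S (a i), fun i hi => ?_, ?_, rfl⟩
    · exact hom_of (x i) (x (i + 1)) (a i) (h1 i hi)
    · change (x (q + 1)).1 = (x 0).1
      rw [h2]
  | zero =>
    rw [map_zero]
    exact Submodule.zero_mem _
  | add a b _ _ ha hb =>
    rw [map_add]
    exact Submodule.add_mem _ ha hb
  | smul c a _ ha =>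
    rw [map_smul]
    exact Submodule.smul_mem _ _ ha

theorem lift_word (S : Finset (Ob D)) (q : ℕ) (x : ℕ → Ob D) (a : ℕ → Amb D R)
    (h1 : ∀ i, i ≤ q → a i ∈ hom R (x i) (x (i + 1))) (h2 : x (q + 1) = x 0)
    (hS : ∀ i, i ≤ q + 1 → x i ∈ S) : ∃ z ∈ Wd R S q, HCmap k (JS S) q z = tp k q a := by
  classical
  let y : ℕ → {x // x ∈ S} := fun i =>
    if h : x i ∈ S then ⟨x i, h⟩ else ⟨x 0, hS 0 (Nat.zero_le _)⟩
  have hy : ∀ i, i ≤ q + 1 → (y i).1 = x i := by
    intro i hi
    change (if h : x i ∈ S then (⟨x i, h⟩ : {x // x ∈ S}) else ⟨x 0, hS 0 (Nat.zero_le _)⟩).1 = x i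
    rw [dif_pos (hS i hi)]
  have h3 : ∀ i, i ≤ q → ∃ b : EE R (VS S), b = ex R (y i) * b * ex R (y (i + 1)) ∧
      JS S b = a i := by
    intro i hi
    refine exists_of_hom (y i) (y (i + 1)) (a i) ?_
    rw [hy i (by omega), hy (i + 1) (by omega)]
    exact h1 i hi
  choose! b hb1 hb2 using h3
  refine ⟨tp k q b, Submodule.subset_span ⟨y, b, hb1, ?_, rfl⟩, ?_⟩
  · apply Subtype.ext
    rw [hy (q + 1) le_rfl, hy 0 (Nat.zero_le _), h2]
  · rw [HCmap_tp]
    exact (tp_coch k q).dep _ _ hb2

theorem lift_cyc (q : ℕ) (z : HC k (Amb D R) q) (hz : z ∈ Cyc R D q) :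
    ∃ S0 : Finset (Ob D), ∀ S : Finset (Ob D), S0 ⊆ S →
      ∃ z1 ∈ Wd R S q, HCmap k (JS S) q z1 = z := by
  unfold Cyc at hz
  induction hz using Submodule.span_induction with
  | mem z h =>
    obtain ⟨x, a, h1, h2, rfl⟩ := h
    refine ⟨(Finset.range (q + 2)).image x, fun S hS => ?_⟩
    exact lift_word S q x a h1 h2 fun i hi =>
      hS (Finset.mem_image_of_mem x (Finset.mem_range.2 (by omega)))
  | zero => exact ⟨∅, fun S _ => ⟨0, Submodule.zero_mem _, map_zero _⟩⟩
  | add a b _ _ ha hb =>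
    obtain ⟨S1, h1⟩ := ha
    obtain ⟨S2, h2⟩ := hb
    refine ⟨S1 ∪ S2, fun S hS => ?_⟩
    obtain ⟨z1, hz1, e1⟩ := h1 S (Finset.union_subset_left hS)
    obtain ⟨z2, hz2, e2⟩ := h2 S (Finset.union_subset_right hS)
    exact ⟨z1 + z2, Submodule.add_mem _ hz1 hz2, by rw [map_add, e1, e2]⟩
  | smul c a _ ha =>
    obtain ⟨S1, h1⟩ := ha
    refine ⟨S1, fun S hS => ?_⟩
    obtain ⟨z1, hz1, e1⟩ := h1 S hS
    exact ⟨c • z1, Submodule.smul_mem _ _ hz1, by rw [map_smul, e1]⟩

/-- a representation on any finite index set is an object -/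
theorem exists_ob {o : Type} [Fintype o] [DecidableEq o] (Ω : MRep D o) :
    ∃ ω : Ob D, Retr Ω ω.2 := by
  classical
  let e : o ≃ Fin (Fintype.card o) := Fintype.equivFin o
  refine ⟨⟨Fintype.card o, ⟨fun g => (Ω.m g).submatrix e.symm e.symm, ?_, ?_, ?_⟩⟩, ?_⟩
  · rw [Ω.one]
    exact Matrix.submatrix_one_equiv e.symm
  · intro g h
    rw [Ω.mul, Matrix.submatrix_mul_equiv]
  · intro i j
    exact Ω.rat _ _
  · refine (retI (V := Ω) (W := ⟨fun g => (Ω.m g).submatrix e.symm e.symm, _, _, _⟩) e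
      e.injective ?_ ?_ ?_).retr
    · intro g i j
      change Ω.m g (e.symm (e i)) (e.symm (e j)) = _
      rw [Equiv.symm_apply_apply, Equiv.symm_apply_apply]
    · intro g p j hp
      exact absurd (e.apply_symm_apply p).symm (hp _)
    · intro g i p hp
      exact absurd (e.apply_symm_apply p).symm (hp _)

theorem retr_trans {u v w : Type} [Fintype u] [DecidableEq u] [Fintype v] [DecidableEq v]
    [Fintype w] [DecidableEq w] {U : MRep D u} {V : MRep D v} {W : MRep D w} (h : Retr U V)
    (h' : Retr V W) : Retr U W := by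
  obtain ⟨a, b, h1, h2, h3⟩ := h
  obtain ⟨a', b', h1', h2', h3'⟩ := h'
  refine ⟨a' * a, b * b', fun g => ?_, fun g => ?_, ?_⟩
  · rw [← Matrix.mul_assoc, h1', Matrix.mul_assoc, h1, Matrix.mul_assoc]
  · rw [← Matrix.mul_assoc, h2, Matrix.mul_assoc, h2', Matrix.mul_assoc]
  · calc b * b' * (a' * a) = b * (b' * a') * a := by simp only [Matrix.mul_assoc]
      _ = 1 := by rw [h3', Matrix.mul_one, h3]

end fin

theorem JS_HC_inj {k G : Type} [Field k] [Group G] {D : RedGroup k G} {R : Type} [Ring R]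
    [Algebra k R] [MulSemiringAction G R] [SMulCommClass G k R] (S : Finset (Ob D)) (n : ℕ) :
    Function.Injective (HCmap k (JS (R := R) S) n) :=
  HCmap_inj (JS (R := R) S) (JS_inj S) n

/-- PACKET CA -/
theorem ca (hQZ : StmtQZ) (hDU : StmtDU) (hPJ : StmtPJ) : StmtCA := by
  intro k G R _ _ _ _ _ _ _ D hR hP hN hF n z hz hbz
  classical
  obtain ⟨S0, hS0⟩ := lift_cyc (n + 1) z hz
  obtain ⟨z1, -, hz1⟩ := hS0 S0 (Finset.Subset.refl _)
  have hb1 : bc k (EE R (VS S0)) n z1 = 0 := by
    apply JS_HC_inj (R := R) S0 n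
    rw [← HCmap_bc (JS (R := R) S0) (JS_mul S0), hz1, hbz, map_zero]
  obtain ⟨o, _, _, Ω, hΩ⟩ := hQZ k G R (KS S0) D (VS S0) hR hP hN hF
  obtain ⟨ω, hω⟩ := exists_ob Ω
  let S' : Finset (Ob D) := insert ω S0
  have hsub : S0 ⊆ S' := Finset.subset_insert ω S0
  have hret : Retr Ω (VS S') :=
    retr_trans hω (rho (⟨ω, Finset.mem_insert_self ω S0⟩ : {x // x ∈ S'})).retr
  have hq := hΩ (KS S') (VS S') hret (rinc hsub) n
  obtain ⟨w1, hw1⟩ := hDU k (EE R (VS S0)) (EE R (VS S')) (rinc hsub).emb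
    (fun a b => RetD.emb_mul _ a b) n hq z1 hb1
  obtain ⟨z2, hz2, hz2'⟩ := hS0 S' hsub
  have e1 : z2 = HCmap k (rinc hsub).emb (n + 1) z1 := by
    apply JS_HC_inj (R := R) S' (n + 1)
    rw [hz2', HCmap_comp]
    have e2 : (JS (R := R) S') ∘ₗ (rinc hsub).emb = JS S0 :=
      LinearMap.ext fun b => JS_rinc hsub b
    rw [e2, hz1]
  obtain ⟨P, hP1, hP2, hP3⟩ := hPJ k (EE R (VS S')) {x // x ∈ S'} (fun x => ex R x)
    (fun x => ex_idem x) (fun x y h => ex_orth x y h) (ex_sum S')
  refine ⟨HCmap k (JS S') (n + 2) (P (n + 2) w1), Wd_map S' (n + 2) _ (hP1 (n + 2) w1), ?_⟩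
  rw [HCmap_bc (JS (R := R) S') (JS_mul S'), hP3, hw1, ← e1, hP2 (n + 1) z2 hz2, hz2']

end Pool.Agent.Helper93.HD
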