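import Pool.Agent.Helper80.HD.GoalsB

set_option autoImplicit false

open MvPolynomial Filter Topology

noncomputable section

namespace Pool.Agent.Helper93.HD

open Pool.Agent.Helper80.HD

/-- the vectors of a segment are not zero -/
lemma seg_ne {K : Type} [Field K] [Algebra K ℂ] {N : ℕ} (f : RMap K N) {m : ℕ}
    {Y : Fin (m + 1) → Fin (N + 1) → ℂ} (h : f.IsSegment Y) (i : Fin (m + 1)) : Y i ≠ 0 := by
  refine Fin.cases ?_ (fun i => ?_) i
  · exact h.1.1
  · exact (h.2 i).1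

/-- The common part of both estimates: sum over the embeddings. -/
lemma core {K : Type} [Field K] [Algebra K ℂ] {N : ℕ} {f : RMap K N} {m : ℕ}
    {a : Fin (m + 1) → ℤ} (T : Triv f m a) {L F' Ω : Type} [Field L] [CharZero L] [Field F'] [Algebra K L]
    [Algebra L F'] [Algebra K F'] [IsScalarTower K L F'] [FiniteDimensional L F'] [Field Ω]
    [IsAlgClosed Ω] [Algebra L Ω] (w : AbsoluteValue Ω ℝ) (emb : F' →ₐ[K] ℂ)
    (y : Fin (m + 1) → Fin (N + 1) → F') (hy : f.IsSegment (fun i j => emb (y i j)))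
    (l₀ : Fin T.s) (hA : aeval (fun p : Fin (m + 1) × Fin (N + 1) => y p.1 p.2) (T.A l₀) ≠ 0)
    (hB : aeval (fun p : Fin (m + 1) × Fin (N + 1) => y p.1 p.2) (T.B l₀) ≠ 0) (C : ℝ)
    (hT : ∀ z : Fin (m + 1) → Fin (N + 1) → Ω, (∀ i, z i ≠ 0) →
      (∀ Q ∈ f.segIdeal m, eval₂ ((algebraMap L Ω).comp (algebraMap K L)) (fun p => z p.1 p.2) Q = 0) →
        ∃ l, eval₂ ((algebraMap L Ω).comp (algebraMap K L)) (fun p => z p.1 p.2) (T.A l) ≠ 0 ∧
          eval₂ ((algebraMap L Ω).comp (algebraMap K L)) (fun p => z p.1 p.2) (T.B l) ≠ 0 ∧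
          |Real.log (w (eval₂ ((algebraMap L Ω).comp (algebraMap K L)) (fun p => z p.1 p.2) (T.A l) /
            eval₂ ((algebraMap L Ω).comp (algebraMap K L)) (fun p => z p.1 p.2) (T.B l))) -
            ∑ i, (a i : ℝ) * Real.log (vn w (z i))| ≤ C) :
    |Real.log (w (algebraMap L Ω (Algebra.norm L
        (aeval (fun p : Fin (m + 1) × Fin (N + 1) => y p.1 p.2) (T.A l₀) /
          aeval (fun p : Fin (m + 1) × Fin (N + 1) => y p.1 p.2) (T.B l₀))))) -
      ∑ i, (a i : ℝ) * ∑ τ : F' →ₐ[L] Ω, Real.log (vn w (fun j => τ (y i j)))| ≤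
        (Module.finrank L F' : ℝ) * C := by
  set g := aeval (fun p : Fin (m + 1) × Fin (N + 1) => y p.1 p.2) (T.A l₀) /
          aeval (fun p : Fin (m + 1) × Fin (N + 1) => y p.1 p.2) (T.B l₀) with hg
  have hg0 : g ≠ 0 := div_ne_zero hA hB
  have hemb : ∀ Q : MvPolynomial (Fin (m + 1) × Fin (N + 1)) K,
      aeval (fun p : Fin (m + 1) × Fin (N + 1) => emb (y p.1 p.2)) Q =
        emb (aeval (fun p : Fin (m + 1) × Fin (N + 1) => y p.1 p.2) Q) := by
    intro Q
    exact (MvPolynomial.comp_aeval_apply (f := fun p : Fin (m + 1) × Fin (N + 1) => y p.1 p.2) emb Q).symm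
  have hyn : ∀ i, y i ≠ 0 := by
    intro i h0
    apply seg_ne f hy i
    funext j
    show emb (y i j) = 0
    rw [h0]
    simp
  have hτ : ∀ (τ : F' →ₐ[L] Ω) (Q : MvPolynomial (Fin (m + 1) × Fin (N + 1)) K),
      eval₂ ((algebraMap L Ω).comp (algebraMap K L)) (fun p => τ (y p.1 p.2)) Q =
        τ (aeval (fun p : Fin (m + 1) × Fin (N + 1) => y p.1 p.2) Q) := by
    intro τ Q
    have h1 := MvPolynomial.eval₂_comp_left (τ : F' →+* Ω) (algebraMap K F')
      (fun p : Fin (m + 1) × Fin (N + 1) => y p.1 p.2) Q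
    rw [MvPolynomial.aeval_def]
    have h2 : ((τ : F' →+* Ω).comp (algebraMap K F')) = (algebraMap L Ω).comp (algebraMap K L) := by
      ext c
      simp only [RingHom.comp_apply]
      rw [IsScalarTower.algebraMap_apply K L F']
      exact τ.commutes _
    rw [h2] at h1
    exact h1.symm
  have hkey : ∀ τ : F' →ₐ[L] Ω, |Real.log (w (τ g)) -
      ∑ i, (a i : ℝ) * Real.log (vn w (fun j => τ (y i j)))| ≤ C := by
    intro τ
    obtain ⟨l, h1, h2, h3⟩ := hT (fun i j => τ (y i j)) (by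
      intro i h0
      apply hyn i
      funext j
      have h00 : τ (y i j) = 0 := congrFun h0 j
      exact τ.toRingHom.injective (show τ (y i j) = τ 0 by rw [map_zero]; exact h00)) (by
      intro Q hQ
      rw [hτ τ Q]
      have hQ' : ∀ Y : Fin (m + 1) → Fin (N + 1) → ℂ, f.IsSegment Y →
          aeval (fun p : Fin (m + 1) × Fin (N + 1) => Y p.1 p.2) Q = 0 := hQ
      have hQ2 : aeval (fun p : Fin (m + 1) × Fin (N + 1) => emb (y p.1 p.2)) Q = 0 :=
        hQ' (fun i j => emb (y i j)) hy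
      have h4 : emb (aeval (fun p : Fin (m + 1) × Fin (N + 1) => y p.1 p.2) Q) = 0 :=
        (hemb Q).symm.trans hQ2
      have h4' : aeval (fun p : Fin (m + 1) × Fin (N + 1) => y p.1 p.2) Q = 0 :=
        emb.injective (by rw [map_zero]; exact h4)
      rw [h4', map_zero])
    rw [hτ τ] at h1 h2
    rw [hτ τ, hτ τ] at h3
    have h2' : aeval (fun p : Fin (m + 1) × Fin (N + 1) => y p.1 p.2) (T.B l) ≠ 0 := by
      intro h0
      rw [h0, map_zero] at h2
      exact h2 rfl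
    have h5 := T.agree _ hy l₀ l
    rw [hemb, hemb, hemb, hemb, ← map_mul emb, ← map_mul emb] at h5
    have h6 := emb.injective h5
    have h7 : g = aeval (fun p : Fin (m + 1) × Fin (N + 1) => y p.1 p.2) (T.A l) /
        aeval (fun p : Fin (m + 1) × Fin (N + 1) => y p.1 p.2) (T.B l) := by
      rw [hg, div_eq_div_iff hB h2']
      exact h6
    rw [h7, map_div₀]
    exact h3
  have hnorm : algebraMap L Ω (Algebra.norm L g) = ∏ τ : F' →ₐ[L] Ω, τ g :=
    Algebra.norm_eq_prod_embeddings L Ω g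
  have hlog : Real.log (w (algebraMap L Ω (Algebra.norm L g))) = ∑ τ : F' →ₐ[L] Ω, Real.log (w (τ g)) := by
    rw [hnorm, map_prod, Real.log_prod]
    intro τ _
    have : τ g ≠ 0 := by
      intro h00
      exact hg0 (τ.toRingHom.injective (show τ g = τ 0 by rw [map_zero]; exact h00))
    exact (AbsoluteValue.ne_zero_iff w).2 this
  have hsum : (∑ i, (a i : ℝ) * ∑ τ : F' →ₐ[L] Ω, Real.log (vn w (fun j => τ (y i j)))) =
      ∑ τ : F' →ₐ[L] Ω, ∑ i, (a i : ℝ) * Real.log (vn w (fun j => τ (y i j))) := by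
    rw [Finset.sum_comm]
    apply Finset.sum_congr rfl
    intro i _
    rw [Finset.mul_sum]
  rw [hlog, hsum, ← Finset.sum_sub_distrib]
  refine (Finset.abs_sum_le_sum_abs _ _).trans ?_
  refine (Finset.sum_le_sum (fun τ _ => hkey τ)).trans ?_
  rw [Finset.sum_const, Finset.card_univ, AlgHom.card, nsmul_eq_mul]

theorem loca (hNAH : S_NAH) (hARH : S_ARH) (hEXT : S_EXT) (hTRV : S_TRV) (hGNM : S_GNM) : S_LOCA := by
  intro K _ _ _ N f m a T
  obtain ⟨Γ, Γt, hΓ, hΓt, hna, har⟩ := hTRV K N f m a T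
  obtain ⟨c, hc0, hc⟩ := hARH N
  refine ⟨Γ, Real.log Γt + c * ∑ i, |(a i : ℝ)|, hΓ, ?_, ?_⟩
  · have h1 : 0 ≤ Real.log Γt := Real.log_nonneg hΓt
    have h2 : 0 ≤ ∑ i, |(a i : ℝ)| := Finset.sum_nonneg (fun i _ => abs_nonneg _)
    positivity
  intro L F' _ _ _ _ _ _ _ emb y hy
  have : CharZero L := charZero_of_injective_algebraMap (algebraMap K L).injective
  have hemb : ∀ Q : MvPolynomial (Fin (m + 1) × Fin (N + 1)) K,
      aeval (fun p : Fin (m + 1) × Fin (N + 1) => emb (y p.1 p.2)) Q =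
        emb (aeval (fun p : Fin (m + 1) × Fin (N + 1) => y p.1 p.2) Q) := by
    intro Q
    exact (MvPolynomial.comp_aeval_apply (f := fun p : Fin (m + 1) × Fin (N + 1) => y p.1 p.2) emb Q).symm
  have hyn : ∀ i, y i ≠ 0 := by
    intro i h0
    apply seg_ne f hy i
    funext j
    show emb (y i j) = 0
    rw [h0]
    simp
  obtain ⟨l₀, hA, hB⟩ := T.cover _ hy
  rw [hemb] at hA hB
  have hA' : aeval (fun p : Fin (m + 1) × Fin (N + 1) => y p.1 p.2) (T.A l₀) ≠ 0 := by
    intro h0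
    rw [h0, map_zero] at hA
    exact hA rfl
  have hB' : aeval (fun p : Fin (m + 1) × Fin (N + 1) => y p.1 p.2) (T.B l₀) ≠ 0 := by
    intro h0
    rw [h0, map_zero] at hB
    exact hB rfl
  refine ⟨_, div_ne_zero hA' hB', ?_, ?_⟩
  · intro ω hω
    obtain ⟨Ω, _, _, w, ι, hw, hwι⟩ := hEXT L ω hω
    let _ : Algebra L Ω := ι.toAlgebra
    have e1 : w.comp ((algebraMap L Ω).comp (algebraMap K L)).injective =
        ω.comp (algebraMap K L).injective := by
      ext x
      exact hwι _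
    have h1 := core T w emb y hy l₀ hA' hB' (Real.log (Γ (ω.comp (algebraMap K L).injective))) (by
      intro z hz hQ
      obtain ⟨l, h1, h2, h3⟩ := hna Ω w ((algebraMap L Ω).comp (algebraMap K L)) z hw hz hQ
      rw [e1] at h3
      exact ⟨l, h1, h2, h3⟩)
    have e2 : ∀ i, Real.log (gn ω (normForm L F' (y i))) =
        ∑ τ : F' →ₐ[L] Ω, Real.log (vn w (fun j => τ (y i j))) := by
      intro i
      rw [← hNAH L F' Ω w hw N (y i) (hyn i)]
      rw [(hGNM.2.1 L (Fin (N + 1)) ω).2.2.2.2.2 Ω (algebraMap L Ω) w hwι]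
    have e3 : ∀ g : L, w (algebraMap L Ω g) = ω g := hwι
    rw [e3] at h1
    simp only [e2]
    exact h1
  · intro ι
    let _ : Algebra L ℂ := ι.toAlgebra
    have h1 := core T absC emb y hy l₀ hA' hB' (Real.log Γt) (by
      intro z hz hQ
      exact har ((algebraMap L ℂ).comp (algebraMap K L)) z hz hQ)
    have h2 : ∀ i, |Real.log (gn absC (map ι (normForm L F' (y i)))) -
        ∑ τ : F' →ₐ[L] ℂ, Real.log (vn absC (fun j => τ (y i j)))| ≤ c * (Module.finrank L F' : ℝ) :=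
      fun i => hc L F' (y i) (hyn i)
    have h3 : |(∑ i, (a i : ℝ) * ∑ τ : F' →ₐ[L] ℂ, Real.log (vn absC (fun j => τ (y i j)))) -
        ∑ i, (a i : ℝ) * Real.log (gn absC (map ι (normForm L F' (y i))))| ≤
          (c * (Module.finrank L F' : ℝ)) * ∑ i, |(a i : ℝ)| := by
      rw [← Finset.sum_sub_distrib, Finset.mul_sum]
      refine (Finset.abs_sum_le_sum_abs _ _).trans (Finset.sum_le_sum (fun i _ => ?_))
      rw [← mul_sub, abs_mul, abs_sub_comm, mul_comm]
      exact mul_le_mul_of_nonneg_right (h2 i) (abs_nonneg _)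
    have h4 := abs_add_le (Real.log (absC (ι (Algebra.norm L
        (aeval (fun p : Fin (m + 1) × Fin (N + 1) => y p.1 p.2) (T.A l₀) /
          aeval (fun p : Fin (m + 1) × Fin (N + 1) => y p.1 p.2) (T.B l₀))))) -
      ∑ i, (a i : ℝ) * ∑ τ : F' →ₐ[L] ℂ, Real.log (vn absC (fun j => τ (y i j))))
      ((∑ i, (a i : ℝ) * ∑ τ : F' →ₐ[L] ℂ, Real.log (vn absC (fun j => τ (y i j)))) -
        ∑ i, (a i : ℝ) * Real.log (gn absC (map ι (normForm L F' (y i)))))
    rw [sub_add_sub_cancel] at h4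
    have h5 : |Real.log (absC (ι (Algebra.norm L
        (aeval (fun p : Fin (m + 1) × Fin (N + 1) => y p.1 p.2) (T.A l₀) /
          aeval (fun p : Fin (m + 1) × Fin (N + 1) => y p.1 p.2) (T.B l₀))))) -
      ∑ i, (a i : ℝ) * ∑ τ : F' →ₐ[L] ℂ, Real.log (vn absC (fun j => τ (y i j)))| ≤
        (Module.finrank L F' : ℝ) * Real.log Γt := h1
    refine h4.trans ?_
    refine (add_le_add h5 h3).trans (le_of_eq ?_)
    ring

end Pool.Agent.Helper93.HD
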