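import Pool.Agent.Helper4.HD.Goals

/-!
Lower half of Haiman's theorem, Dunkl block, packet STB: the ideal `Jd n` is stable.
-/

set_option autoImplicit false

namespace Pool.Agent.Helper93.HD

open MvPolynomial Finset Pool.Agent.Helper4.HD

noncomputable section

/-- the generators of `Jd n`. -/
def gens (n : ℕ) : Set (P n) := Set.range (fun i : Fin n => ff i (n + 1)) ∪ {pw n 1}

theorem gens_sub {n : ℕ} {g : P n} (hg : g ∈ gens n) : g ∈ Jd n := Ideal.subset_span hg

theorem sw_pw (n a : ℕ) (σ : Equiv.Perm (Fin n)) : sw σ (pw n a) = pw n a := by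
  unfold pw
  rw [map_sum]
  simp only [map_pow, sw_X]
  exact Equiv.sum_comp σ (fun k => (X k : P n) ^ a)

theorem sw_stab (hG : S_GG) {n : ℕ} (σ : Equiv.Perm (Fin n)) {f : P n} (hf : f ∈ Jd n) :
    sw σ f ∈ Jd n := by
  have h1 : Jd n ≤ (Jd n).comap (sw σ) := by
    conv_lhs => unfold Jd
    rw [Ideal.span_le]
    rintro g (⟨i, rfl⟩ | hg)
    · change sw σ (ff i (n + 1)) ∈ Jd n
      rw [(hG n (n + 1) σ).2.1 i]
      exact gens_sub (Or.inl ⟨σ i, rfl⟩)
    · have hg' : g = pw n 1 := hg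
      subst hg'
      change sw σ (pw n 1) ∈ Jd n
      rw [sw_pw]
      exact gens_sub (Or.inr rfl)
  exact h1 hf

theorem Tk_gens (hT : S_TRL) (hS : S_SNG) {n : ℕ} (i : Fin n) {g : P n} (hg : g ∈ gens n) :
    Tk i g = 0 := by
  rcases hg with ⟨j, rfl⟩ | hg
  · exact (hS n i j).2.2.2
  · have hg' : g = pw n 1 := hg
    subst hg'
    have h1 := (hT n i (1 : P n)).2.2.2.2.1
    rw [mul_one] at h1
    have h2 := (hT n i (1 : P n)).2.2.2.2.2.1 1
    rw [C_1] at h2
    rw [h1, h2, mul_zero]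

theorem Tk_mul_gens (hT : S_TRL) (hG : S_GG) (hS : S_SNG) {n : ℕ} (i : Fin n) {g : P n}
    (hg : g ∈ gens n) (a : P n) : Tk i (a * g) ∈ Jd n := by
  induction a using MvPolynomial.induction_on with
  | C z =>
    rw [C_mul', map_smul, Tk_gens hT hS i hg, smul_zero]
    exact Ideal.zero_mem _
  | add p q hp hq =>
    rw [add_mul, map_add]
    exact Ideal.add_mem _ hp hq
  | mul_X p k hp =>
    have e : p * X k * g = X k * (p * g) := by ring
    rw [e]
    have hpg : p * g ∈ Jd n := Ideal.mul_mem_left _ _ (gens_sub hg)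
    have hsm : ∀ (z : ℂ) {u : P n}, u ∈ Jd n → z • u ∈ Jd n := by
      intro z u hu
      rw [← C_mul']
      exact Ideal.mul_mem_left _ _ hu
    by_cases hk : i = k
    · subst hk
      rw [(hT n i (p * g)).1]
      refine Ideal.sub_mem _ (Ideal.add_mem _ (Ideal.mul_mem_left _ _ hp) (hsm _ hpg)) (hsm _ ?_)
      exact Ideal.sum_mem _ fun j _ => sw_stab hG _ hpg
    · rw [(hT n i (p * g)).2.1 k hk]
      exact Ideal.sub_mem _ (Ideal.add_mem _ (Ideal.mul_mem_left _ _ hp)
        (hsm _ (sw_stab hG _ hpg))) (hsm _ hpg)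

theorem Tk_stab (hT : S_TRL) (hG : S_GG) (hS : S_SNG) {n : ℕ} (i : Fin n) {f : P n}
    (hf : f ∈ Jd n) : Tk i f ∈ Jd n := by
  have hf' : f ∈ Submodule.span (P n) (gens n) := hf
  have key : ∀ a : P n, Tk i (a * f) ∈ Jd n := by
    induction hf' using Submodule.span_induction with
    | mem x hx => exact fun a => Tk_mul_gens hT hG hS i hx a
    | zero =>
      intro a
      rw [mul_zero, map_zero]
      exact Ideal.zero_mem _
    | add x y hx hy h1 h2 =>
      intro a
      rw [mul_add, map_add]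
      exact Ideal.add_mem _ (h1 hx a) (h2 hy a)
    | smul b x hx h1 =>
      intro a
      rw [smul_eq_mul, ← mul_assoc]
      exact h1 hx (a * b)
  have h2 := key 1
  rwa [one_mul] at h2

theorem hom_gens (hG : S_GG) {n : ℕ} {g : P n} (hg : g ∈ gens n) :
    ∃ d, 0 < d ∧ g.IsHomogeneous d := by
  rcases hg with ⟨j, rfl⟩ | hg
  · exact ⟨n + 1, Nat.succ_pos _, (hG n (n + 1) 1).2.2.2.1.2 j⟩
  · have hg' : g = pw n 1 := hg
    subst hg'
    refine ⟨1, Nat.one_pos, ?_⟩
    unfold pw
    refine IsHomogeneous.sum _ _ _ fun k _ => ?_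
    rw [pow_one]
    exact isHomogeneous_X _ _

attribute [local instance] MvPolynomial.gradedAlgebra

theorem comp_stab (hG : S_GG) {n : ℕ} (d : ℕ) {f : P n} (hf : f ∈ Jd n) :
    homogeneousComponent d f ∈ Jd n := by
  have h1 : (Jd n).IsHomogeneous (homogeneousSubmodule (Fin n) ℂ) := by
    refine Ideal.homogeneous_span _ _ fun g hg => ?_
    obtain ⟨e, -, he⟩ := hom_gens hG (g := g) hg
    exact ⟨e, he⟩
  have h2 := h1 d hf
  have h3 : ((DirectSum.decompose (homogeneousSubmodule (Fin n) ℂ) f d :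
      homogeneousSubmodule (Fin n) ℂ d) : P n) = homogeneousComponent d f :=
    MvPolynomial.decomposition.decompose'_apply f d
  rwa [h3] at h2

theorem const_zero (hG : S_GG) {n : ℕ} {f : P n} (hf : f ∈ Jd n) : constantCoeff f = 0 := by
  have h1 : Jd n ≤ RingHom.ker (constantCoeff : P n →+* ℂ) := by
    unfold Jd
    rw [Ideal.span_le]
    intro g hg
    obtain ⟨d, hd, he⟩ := hom_gens hG (g := g) hg
    change constantCoeff g = 0
    rw [constantCoeff_eq]
    refine he.coeff_eq_zero ?_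
    rw [map_zero]
    omega
  exact h1 hf

theorem stb (hT : S_TRL) (hG : S_GG) (hS : S_SNG) : S_STB := by
  intro n f hf
  exact ⟨fun i => Tk_stab hT hG hS i hf, fun σ => sw_stab hG σ hf, fun d => comp_stab hG d hf,
    const_zero hG hf⟩

end

end Pool.Agent.Helper93.HD
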